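import Mathlib

/-!
# `x⁴ - y⁴ = z²` has no nontrivial solutions and the rational points of `y² = x³ - x` (helper42)
-/

namespace Pool.Agent.H42

/-- If `m n = c²` with `m, n` coprime and `0 ≤ m`, `0 ≤ n` then both are squares. -/
theorem sq_of_mul {m n c : ℤ} (h : IsCoprime m n) (heq : m * n = c ^ 2) (hm : 0 ≤ m)
    (hn : 0 ≤ n) : (∃ a, m = a ^ 2) ∧ ∃ b, n = b ^ 2 := by
  constructor
  · obtain ⟨a, ha | ha⟩ := Int.sq_of_isCoprime h heq
    · exact ⟨a, ha⟩
    · exact ⟨0, by nlinarith [sq_nonneg a]⟩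
  · obtain ⟨a, ha | ha⟩ := Int.sq_of_isCoprime h.symm (by rw [mul_comm]; exact heq)
    · exact ⟨a, ha⟩
    · exact ⟨0, by nlinarith [sq_nonneg a]⟩

/-- No nontrivial coprime solutions of `x⁴ = y⁴ + z²`. -/
theorem no_sol_coprime (n : ℕ) : ∀ x y z : ℤ, 0 < x → x.natAbs = n → y ≠ 0 → z ≠ 0 →
    IsCoprime x y → x ^ 4 ≠ y ^ 4 + z ^ 2 := by
  induction n using Nat.strong_induction_on with
  | _ n ih =>
    intro x y z hx0 hxn hy hz hcop heq
    have hyz : IsCoprime (y ^ 2) z := by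
      have h1 : IsCoprime (y ^ 2) (x ^ 4) := hcop.symm.pow
      have h2 : IsCoprime (y ^ 2) (x ^ 4 + y ^ 2 * (-(y ^ 2))) := h1.add_mul_left_right _
      have h3 : x ^ 4 + y ^ 2 * (-(y ^ 2)) = z ^ 2 := by rw [heq]; ring
      rw [h3] at h2
      exact (IsCoprime.pow_right_iff (by norm_num)).1 h2
    have hx2 : 0 < x ^ 2 := by positivity
    -- the second descent step
    have key : ∀ p q y' : ℤ, 0 < p → 0 < q → p % 2 = 1 → IsCoprime p (2 * q) → p * q = y' ^ 2 →
        x ^ 2 = p ^ 2 + (2 * q) ^ 2 → False := by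
      intro p q y' hp hq hodd hpq hmul hx
      have hpq' : IsCoprime p q := (IsCoprime.mul_right_iff.1 hpq).2
      have ht : PythagoreanTriple p (2 * q) x := by
        show p * p + 2 * q * (2 * q) = x * x
        linear_combination -hx
      obtain ⟨u, v, h1, h2, h3, h4, h5, h6⟩ := ht.coprime_classification'
        (Int.isCoprime_iff_gcd_eq_one.1 hpq) hodd hx0
      have huv : IsCoprime u v := Int.isCoprime_iff_gcd_eq_one.2 h4
      have h7 : q = u * v := by linarith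
      obtain ⟨⟨b, hb⟩, ⟨a, ha⟩⟩ := sq_of_mul hpq' hmul hp.le hq.le
      have hu0 : 0 < u := by
        rcases h6.lt_or_eq with h | h
        · exact h
        · rw [← h] at h7; simp at h7; omega
      have hv0 : 0 < v := by
        by_contra hv
        push Not at hv
        have : u * v ≤ 0 := mul_nonpos_of_nonneg_of_nonpos hu0.le hv
        omega
      obtain ⟨⟨r, hr⟩, ⟨t, htt⟩⟩ := sq_of_mul huv (h7.symm.trans ha) hu0.le hv0.le
      have hrt : IsCoprime r t := by
        rw [hr, htt] at huv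
        exact (IsCoprime.pow_iff (by norm_num) (by norm_num)).1 huv
      have hr0 : r ≠ 0 := by
        rintro rfl
        simp at hr
        omega
      have ht0 : t ≠ 0 := by
        rintro rfl
        simp at htt
        omega
      have hb0 : b ≠ 0 := by
        rintro rfl
        simp at hb
        omega
      have h8 : |r| ^ 4 = t ^ 4 + b ^ 2 := by
        have : |r| ^ 4 = r ^ 4 := by
          rw [show (4 : ℕ) = 2 * 2 by norm_num, pow_mul, sq_abs, ← pow_mul]
        rw [this, ← hb, h1, hr, htt]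
        ring
      have h9 : |r| < x := by
        have e1 : 1 ≤ |r| := Int.one_le_abs hr0
        have e2 : u = |r| ^ 2 := by rw [sq_abs]; exact hr
        have e3 : 1 ≤ v ^ 2 := by nlinarith
        rw [h3, e2]
        nlinarith [sq_nonneg (|r| ^ 2 - |r|), sq_nonneg (|r| - 1)]
      have h10 : 0 < |r| := abs_pos.2 hr0
      refine ih |r|.natAbs ?_ |r| t b h10 rfl ht0 hb0 ?_ h8
      · rw [← hxn]
        zify
        rw [abs_abs, abs_of_pos hx0]
        exact h9
      · rcases abs_choice r with h | h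
        · rw [h]; exact hrt
        · rw [h]; exact hrt.neg_left
    rcases Int.emod_two_eq_zero_or_one y with hye | hyo
    · -- `y` even
      obtain ⟨y', rfl⟩ : ∃ y', y = 2 * y' := ⟨y / 2, by omega⟩
      have hzo : z % 2 = 1 := by
        by_contra hz2
        have hz2' : z % 2 = 0 := by omega
        obtain ⟨z', rfl⟩ : ∃ z', z = 2 * z' := ⟨z / 2, by omega⟩
        have h1 : IsCoprime (2 * (2 * y' ^ 2)) (2 * z') := by
          have : (2 * y') ^ 2 = 2 * (2 * y' ^ 2) := by ring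
          rw [← this]; exact hyz
        have h2 : IsCoprime (2 : ℤ) 2 := (IsCoprime.mul_left_iff.1
          (IsCoprime.mul_right_iff.1 h1).1).1
        have h3 := isCoprime_self.1 h2
        rw [Int.isUnit_iff] at h3
        omega
      have ht : PythagoreanTriple z ((2 * y') ^ 2) (x ^ 2) := by
        show z * z + (2 * y') ^ 2 * (2 * y') ^ 2 = x ^ 2 * x ^ 2
        linear_combination -heq
      obtain ⟨m, k, h1, h2, h3, h4, h5, h6⟩ := ht.coprime_classification'
        (Int.isCoprime_iff_gcd_eq_one.1 hyz.symm) hzo hx2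
      have hmk : IsCoprime m k := Int.isCoprime_iff_gcd_eq_one.2 h4
      have hy'0 : y' ≠ 0 := by
        rintro rfl
        exact hy (by norm_num)
      have hy2 : 0 < y' ^ 2 := by positivity
      have h7 : m * k = 2 * y' ^ 2 := by linarith
      have hm0 : 0 < m := by
        rcases h6.lt_or_eq with h | h
        · exact h
        · rw [← h] at h7; simp at h7; exact absurd h7 hy'0
      have hk0 : 0 < k := by
        by_contra hk
        push Not at hk
        have : m * k ≤ 0 := mul_nonpos_of_nonneg_of_nonpos hm0.le hk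
        omega
      rcases h5 with ⟨hm, hk⟩ | ⟨hm, hk⟩
      · obtain ⟨q, rfl⟩ : ∃ q, m = 2 * q := ⟨m / 2, by omega⟩
        refine key k q y' hk0 (by omega) hk hmk.symm ?_ (by rw [h3]; ring)
        linarith
      · obtain ⟨q, rfl⟩ : ∃ q, k = 2 * q := ⟨k / 2, by omega⟩
        refine key m q y' hm0 (by omega) hm hmk ?_ (by rw [h3])
        linarith
    · -- `y` odd
      have hodd : y ^ 2 % 2 = 1 := by
        rw [pow_two, Int.mul_emod, hyo]; norm_num
      have ht : PythagoreanTriple (y ^ 2) z (x ^ 2) := by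
        show y ^ 2 * y ^ 2 + z * z = x ^ 2 * x ^ 2
        linear_combination -heq
      obtain ⟨m, k, h1, h2, h3, h4, h5, h6⟩ := ht.coprime_classification'
        (Int.isCoprime_iff_gcd_eq_one.1 hyz) hodd hx2
      have hmk : IsCoprime m k := Int.isCoprime_iff_gcd_eq_one.2 h4
      have hm0 : m ≠ 0 := by
        rintro rfl
        exact hz (by rw [h2]; ring)
      have hk0 : k ≠ 0 := by
        rintro rfl
        exact hz (by rw [h2]; ring)
      have hmpos : 0 < m := lt_of_le_of_ne h6 hm0.symm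
      have h8 : m ^ 4 = k ^ 4 + (x * y) ^ 2 := by
        have : (x * y) ^ 2 = x ^ 2 * y ^ 2 := by ring
        rw [this, h3, h1]; ring
      have h9 : m < x := by
        have : 0 < k ^ 2 := by positivity
        nlinarith
      refine ih m.natAbs ?_ m k (x * y) hmpos rfl hk0 (mul_ne_zero hx0.ne' hy) hmk h8
      rw [← hxn]
      zify
      rw [abs_of_pos hmpos, abs_of_pos hx0]
      exact h9

/-- No nontrivial solutions of `x⁴ - y⁴ = z²`. -/
theorem no_sol_sub (x y z : ℤ) (hy : y ≠ 0) (hz : z ≠ 0) : x ^ 4 - y ^ 4 ≠ z ^ 2 := by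
  intro heq
  have hx : x ≠ 0 := by
    rintro rfl
    have : 0 < y ^ 4 := by positivity
    have : 0 < z ^ 2 := by positivity
    nlinarith
  obtain ⟨g, a, b, hab, h1, h2⟩ : ∃ g a b : ℤ, IsCoprime a b ∧ x = g * a ∧ y = g * b := by
    obtain ⟨a, b, h1, h2, hab⟩ := extract_gcd x y
    exact ⟨gcd x y, a, b, (gcd_isUnit_iff a b).1 hab, h1, h2⟩
  have hg : g ≠ 0 := by
    rintro rfl
    exact hx (by rw [h1]; ring)
  have hb : b ≠ 0 := by
    rintro rfl
    exact hy (by rw [h2]; ring)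
  have ha : a ≠ 0 := by
    rintro rfl
    exact hx (by rw [h1]; ring)
  have h3 : (g ^ 2) ^ 2 ∣ z ^ 2 := ⟨a ^ 4 - b ^ 4, by rw [← heq, h1, h2]; ring⟩
  obtain ⟨c, hc⟩ := (Int.pow_dvd_pow_iff (by norm_num)).1 h3
  have hc0 : c ≠ 0 := by
    rintro rfl
    exact hz (by rw [hc]; ring)
  have h4 : a ^ 4 = b ^ 4 + c ^ 2 := by
    have h5 : g ^ 4 * (a ^ 4) = g ^ 4 * (b ^ 4 + c ^ 2) := by
      have : (g * a) ^ 4 - (g * b) ^ 4 = (g ^ 2 * c) ^ 2 := by rw [← h1, ← h2, ← hc]; exact heq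
      linear_combination this
    exact mul_left_cancel₀ (pow_ne_zero 4 hg) h5
  have h6 : |a| ^ 4 = b ^ 4 + c ^ 2 := by
    rw [← h4, show (4 : ℕ) = 2 * 2 by norm_num, pow_mul, sq_abs, ← pow_mul]
  refine no_sol_coprime _ |a| b c (abs_pos.2 ha) rfl hb hc0 ?_ h6
  rcases abs_choice a with h | h
  · rw [h]; exact hab
  · rw [h]; exact hab.neg_left

/-- No nontrivial coprime solutions of `x⁴ = 4 y⁴ + z²`. -/
theorem no_sol_coprime4 (x y z : ℤ) (hx0 : 0 < x) (hy : y ≠ 0) (hz : z ≠ 0)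
    (hcop : IsCoprime x y) : x ^ 4 ≠ 4 * y ^ 4 + z ^ 2 := by
  intro heq
  have hx2 : 0 < x ^ 2 := by positivity
  rcases Int.emod_two_eq_zero_or_one x with hxe | hxo
  · obtain ⟨x', rfl⟩ : ∃ x', x = 2 * x' := ⟨x / 2, by omega⟩
    have hyo : y % 2 = 1 := by
      by_contra hy2
      have hy2' : y % 2 = 0 := by omega
      obtain ⟨y', rfl⟩ : ∃ y', y = 2 * y' := ⟨y / 2, by omega⟩
      have h2 : IsCoprime (2 : ℤ) 2 := (IsCoprime.mul_left_iff.1
          (IsCoprime.mul_right_iff.1 hcop).1).1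
      have h3 := isCoprime_self.1 h2
      rw [Int.isUnit_iff] at h3
      omega
    have hz2 : z % 2 = 0 := by
      rcases Int.emod_two_eq_zero_or_one z with h | h
      · exact h
      · exfalso
        obtain ⟨k, rfl⟩ : ∃ k, z = 2 * k + 1 := ⟨z / 2, by omega⟩
        have : (2 * x') ^ 4 = 4 * y ^ 4 + (2 * k + 1) ^ 2 := heq
        ring_nf at this
        omega
    obtain ⟨z', rfl⟩ : ∃ z', z = 2 * z' := ⟨z / 2, by omega⟩
    have h1 : 4 * x' ^ 4 = y ^ 4 + z' ^ 2 := by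
      have : 4 * (4 * x' ^ 4) = 4 * (y ^ 4 + z' ^ 2) := by linear_combination heq
      linarith
    obtain ⟨k, rfl⟩ : ∃ k, y = 2 * k + 1 := ⟨y / 2, by omega⟩
    rcases Int.emod_two_eq_zero_or_one z' with h | h
    · obtain ⟨l, rfl⟩ : ∃ l, z' = 2 * l := ⟨z' / 2, by omega⟩
      ring_nf at h1
      omega
    · obtain ⟨l, rfl⟩ : ∃ l, z' = 2 * l + 1 := ⟨z' / 2, by omega⟩
      ring_nf at h1
      omega
  · have h2 : IsCoprime (2 : ℤ) x := ⟨-(x / 2), 1, by omega⟩
    have hzy : IsCoprime z (2 * y ^ 2) := by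
      have h3 : IsCoprime (2 * y ^ 2) (x ^ 4) :=
        IsCoprime.mul_left (IsCoprime.pow_right h2) hcop.symm.pow
      have h4 : IsCoprime (2 * y ^ 2) (x ^ 4 + 2 * y ^ 2 * (-(2 * y ^ 2))) :=
        h3.add_mul_left_right _
      have h5 : x ^ 4 + 2 * y ^ 2 * (-(2 * y ^ 2)) = z ^ 2 := by rw [heq]; ring
      rw [h5] at h4
      exact ((IsCoprime.pow_right_iff (by norm_num)).1 h4).symm
    have hzo : z % 2 = 1 := by
      by_contra hz2
      have hz2' : z % 2 = 0 := by omega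
      obtain ⟨z', rfl⟩ : ∃ z', z = 2 * z' := ⟨z / 2, by omega⟩
      have h2 : IsCoprime (2 : ℤ) 2 := (IsCoprime.mul_left_iff.1
          (IsCoprime.mul_right_iff.1 hzy).1).1
      have h3 := isCoprime_self.1 h2
      rw [Int.isUnit_iff] at h3
      omega
    have ht : PythagoreanTriple z (2 * y ^ 2) (x ^ 2) := by
      show z * z + 2 * y ^ 2 * (2 * y ^ 2) = x ^ 2 * x ^ 2
      linear_combination -heq
    obtain ⟨m, k, h1, h2, h3, h4, h5, h6⟩ := ht.coprime_classification'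
      (Int.isCoprime_iff_gcd_eq_one.1 hzy) hzo hx2
    have hmk : IsCoprime m k := Int.isCoprime_iff_gcd_eq_one.2 h4
    have h7 : m * k = y ^ 2 := by linarith
    have hy2 : 0 < y ^ 2 := by positivity
    have hm0 : 0 < m := by
      rcases h6.lt_or_eq with h | h
      · exact h
      · rw [← h, zero_mul] at h7
        omega
    have hk0 : 0 < k := by
      by_contra hk
      push Not at hk
      have : m * k ≤ 0 := mul_nonpos_of_nonneg_of_nonpos hm0.le hk
      omega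
    obtain ⟨⟨a, ha⟩, ⟨b, hb⟩⟩ := sq_of_mul hmk h7 hm0.le hk0.le
    have ha0 : a ≠ 0 := by
      rintro rfl
      simp at ha
      omega
    have hb0 : b ≠ 0 := by
      rintro rfl
      simp at hb
      omega
    refine not_fermat_42 (c := x) ha0 hb0 ?_
    rw [h3, ha, hb]
    ring

/-- No nontrivial solutions of `x⁴ - 4 y⁴ = z²`. -/
theorem no_sol_sub4 (x y z : ℤ) (hy : y ≠ 0) (hz : z ≠ 0) : x ^ 4 - 4 * y ^ 4 ≠ z ^ 2 := by
  intro heq
  have hx : x ≠ 0 := by
    rintro rfl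
    have : 0 < y ^ 4 := by positivity
    have : 0 < z ^ 2 := by positivity
    nlinarith
  obtain ⟨g, a, b, hab, h1, h2⟩ : ∃ g a b : ℤ, IsCoprime a b ∧ x = g * a ∧ y = g * b := by
    obtain ⟨a, b, h1, h2, hab⟩ := extract_gcd x y
    exact ⟨gcd x y, a, b, (gcd_isUnit_iff a b).1 hab, h1, h2⟩
  have hg : g ≠ 0 := by
    rintro rfl
    exact hx (by rw [h1]; ring)
  have hb : b ≠ 0 := by
    rintro rfl
    exact hy (by rw [h2]; ring)
  have ha : a ≠ 0 := by
    rintro rfl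
    exact hx (by rw [h1]; ring)
  have h3 : (g ^ 2) ^ 2 ∣ z ^ 2 := ⟨a ^ 4 - 4 * b ^ 4, by rw [← heq, h1, h2]; ring⟩
  obtain ⟨c, hc⟩ := (Int.pow_dvd_pow_iff (by norm_num)).1 h3
  have hc0 : c ≠ 0 := by
    rintro rfl
    exact hz (by rw [hc]; ring)
  have h4 : a ^ 4 = 4 * b ^ 4 + c ^ 2 := by
    have h5 : g ^ 4 * (a ^ 4) = g ^ 4 * (4 * b ^ 4 + c ^ 2) := by
      have : (g * a) ^ 4 - 4 * (g * b) ^ 4 = (g ^ 2 * c) ^ 2 := by
        rw [← h1, ← h2, ← hc]; exact heq
      linear_combination this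
    exact mul_left_cancel₀ (pow_ne_zero 4 hg) h5
  have h6 : |a| ^ 4 = 4 * b ^ 4 + c ^ 2 := by
    rw [← h4, show (4 : ℕ) = 2 * 2 by norm_num, pow_mul, sq_abs, ← pow_mul]
  refine no_sol_coprime4 |a| b c (abs_pos.2 ha) hb hc0 ?_ h6
  rcases abs_choice a with h | h
  · rw [h]; exact hab
  · rw [h]; exact hab.neg_left

theorem sq_ne_two (x : ℚ) : x ^ 2 ≠ 2 := by
  intro h
  have h1 : ((|x| : ℚ) : ℝ) = √2 := by
    rw [eq_comm, Real.sqrt_eq_iff_mul_self_eq (by norm_num) (by positivity)]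
    rw [← Rat.cast_mul, abs_mul_abs_self, ← pow_two, h]
    norm_num
  exact irrational_sqrt_two ⟨_, h1⟩

/-- A rational solution of `u⁴ - d = t²` gives an integral one of `x⁴ - d y⁴ = z²`. -/
theorem int_of_rat (d : ℤ) (u t : ℚ) (ht : t ≠ 0) (h : u ^ 4 - d = t ^ 2) :
    ∃ x y z : ℤ, y ≠ 0 ∧ z ≠ 0 ∧ x ^ 4 - d * y ^ 4 = z ^ 2 := by
  have hq : (u.den : ℚ) ≠ 0 := by exact_mod_cast u.den_nz
  have hb : (t.den : ℚ) ≠ 0 := by exact_mod_cast t.den_nz
  refine ⟨t.den * u.num, t.den * u.den, t.num * t.den * u.den ^ 2, ?_, ?_, ?_⟩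
  · exact_mod_cast mul_ne_zero t.den_nz u.den_nz
  · have h1 : t.num ≠ 0 := Rat.num_ne_zero.2 ht
    have h2 : (t.den : ℤ) ≠ 0 := by exact_mod_cast t.den_nz
    have h3 : (u.den : ℤ) ≠ 0 := by exact_mod_cast u.den_nz
    positivity
  · have hu : (u.num : ℚ) = u * u.den := (Rat.mul_den_eq_num u).symm
    have htt : (t.num : ℚ) = t * t.den := (Rat.mul_den_eq_num t).symm
    have : (((t.den : ℚ) * u.num) ^ 4 - d * ((t.den : ℚ) * u.den) ^ 4) =
        ((t.num : ℚ) * t.den * (u.den : ℚ) ^ 2) ^ 2 := by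
      rw [hu, htt]
      linear_combination ((t.den : ℚ) ^ 4 * (u.den : ℚ) ^ 4) * h
    exact_mod_cast this

/-- The rational points of `y² = x³ - x` have `y = 0`. -/
theorem ec_neg1 (x y : ℚ) (h : y ^ 2 = x ^ 3 - x) : y = 0 := by
  by_contra hy
  have h2 : (2 * y) ≠ 0 := mul_ne_zero two_ne_zero hy
  have hv : x ^ 2 - 2 * x - 1 ≠ 0 := fun hv => sq_ne_two (x - 1) (by linear_combination hv)
  have hw : x ^ 2 + 2 * x - 1 ≠ 0 := fun hw => sq_ne_two (x + 1) (by linear_combination hw)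
  obtain ⟨a, b, c, hb, hc, habc⟩ := int_of_rat 1 ((x ^ 2 + 1) / (2 * y))
    ((x ^ 2 - 2 * x - 1) * (x ^ 2 + 2 * x - 1) / (2 * y) ^ 2)
    (div_ne_zero (mul_ne_zero hv hw) (pow_ne_zero 2 h2)) (by
      rw [div_pow, div_pow, ← pow_mul, eq_div_iff (pow_ne_zero _ h2), sub_mul,
        div_mul_cancel₀ _ (pow_ne_zero _ h2)]
      have h3 : (2 * y) ^ (2 * 2) = 16 * (x ^ 3 - x) ^ 2 := by rw [← h]; ring
      push_cast
      rw [h3]
      ring)
  rw [one_mul] at habc
  exact no_sol_sub a b c hb hc habc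

/-- The rational points of `y² = x³ - 4 x` have `y = 0`. -/
theorem ec_neg4 (x y : ℚ) (h : y ^ 2 = x ^ 3 - 4 * x) : y = 0 := by
  by_contra hy
  have h2 : (2 * y) ≠ 0 := mul_ne_zero two_ne_zero hy
  have hv : x ^ 2 - 4 * x - 4 ≠ 0 := fun hv => sq_ne_two ((x - 2) / 2) (by linear_combination hv / 4)
  have hw : x ^ 2 + 4 * x - 4 ≠ 0 := fun hw => sq_ne_two ((x + 2) / 2) (by linear_combination hw / 4)
  obtain ⟨a, b, c, hb, hc, habc⟩ := int_of_rat 4 ((x ^ 2 + 4) / (2 * y))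
    ((x ^ 2 - 4 * x - 4) * (x ^ 2 + 4 * x - 4) / (2 * y) ^ 2)
    (div_ne_zero (mul_ne_zero hv hw) (pow_ne_zero 2 h2)) (by
      rw [div_pow, div_pow, ← pow_mul, eq_div_iff (pow_ne_zero _ h2), sub_mul,
        div_mul_cancel₀ _ (pow_ne_zero _ h2)]
      have h3 : (2 * y) ^ (2 * 2) = 16 * (x ^ 3 - 4 * x) ^ 2 := by rw [← h]; ring
      push_cast
      rw [h3]
      ring)
  exact no_sol_sub4 a b c hb hc habc

end Pool.Agent.H42
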