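import Mathlib

/-!
# Legendre's theorem on ternary forms (pigeonhole form) and an auxiliary prime (helper42)
-/

set_option autoImplicit false

namespace Pool.Agent.H42

/-- Pigeonhole step: a small nontrivial solution of three linear congruences. -/
theorem pigeon (a b c i j k : ℕ) (ha : 0 < a) (hb : 0 < b) (hc : 0 < c)
    (hcard : a * b * c < i * j * k) (sa sb sc : ℤ) :
    ∃ x y z : ℤ, ¬ (x = 0 ∧ y = 0 ∧ z = 0) ∧ |x| < i ∧ |y| < j ∧ |z| < k ∧
      (a : ℤ) ∣ b * y - sa * z ∧ (b : ℤ) ∣ a * x - sb * z ∧ (c : ℤ) ∣ a * x - sc * y := by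
  have : NeZero a := ⟨ha.ne'⟩
  have : NeZero b := ⟨hb.ne'⟩
  have : NeZero c := ⟨hc.ne'⟩
  let f : Fin i × Fin j × Fin k → ZMod a × ZMod b × ZMod c := fun t =>
    ((((b : ℤ) * (t.2.1 : ℕ) - sa * (t.2.2 : ℕ) : ℤ) : ZMod a),
      (((a : ℤ) * (t.1 : ℕ) - sb * (t.2.2 : ℕ) : ℤ) : ZMod b),
      (((a : ℤ) * (t.1 : ℕ) - sc * (t.2.1 : ℕ) : ℤ) : ZMod c))
  have h1 : Fintype.card (ZMod a × ZMod b × ZMod c) < Fintype.card (Fin i × Fin j × Fin k) := by
    simp only [Fintype.card_prod, ZMod.card, Fintype.card_fin]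
    rw [← mul_assoc, ← mul_assoc]
    exact hcard
  obtain ⟨s, t, hst, hf⟩ := Fintype.exists_ne_map_eq_of_card_lt f h1
  refine ⟨(s.1 : ℕ) - (t.1 : ℕ), (s.2.1 : ℕ) - (t.2.1 : ℕ), (s.2.2 : ℕ) - (t.2.2 : ℕ),
    ?_, ?_, ?_, ?_, ?_, ?_, ?_⟩
  · rintro ⟨h2, h3, h4⟩
    apply hst
    refine Prod.ext (Fin.ext ?_) (Prod.ext (Fin.ext ?_) (Fin.ext ?_)) <;> omega
  · have := s.1.2
    have := t.1.2
    rw [abs_lt]; constructor <;> omega
  · have := s.2.1.2
    have := t.2.1.2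
    rw [abs_lt]; constructor <;> omega
  · have := s.2.2.2
    have := t.2.2.2
    rw [abs_lt]; constructor <;> omega
  · have h2 := congrArg Prod.fst hf
    simp only [f] at h2
    rw [ZMod.intCast_eq_intCast_iff_dvd_sub] at h2
    have h3 := (dvd_neg).2 h2
    refine h3.trans (dvd_of_eq ?_)
    ring
  · have h2 := congrArg (fun r => r.2.1) hf
    simp only [f] at h2
    rw [ZMod.intCast_eq_intCast_iff_dvd_sub] at h2
    have h3 := (dvd_neg).2 h2
    refine h3.trans (dvd_of_eq ?_)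
    ring
  · have h2 := congrArg (fun r => r.2.2) hf
    simp only [f] at h2
    rw [ZMod.intCast_eq_intCast_iff_dvd_sub] at h2
    have h3 := (dvd_neg).2 h2
    refine h3.trans (dvd_of_eq ?_)
    ring

/-- Legendre's theorem (existence part) for `a x² + b y² = c z²` with `c` prime. -/
theorem ternary_solve (a b c : ℕ) (ha : 0 < a) (hb : 0 < b) (hc : c.Prime)
    (hab : Nat.Coprime a b) (hca : ¬ c ∣ a) (hcb : ¬ c ∣ b) (sa sb sc : ℤ)
    (h1 : (a : ℤ) ∣ sa ^ 2 - b * c) (h2 : (b : ℤ) ∣ sb ^ 2 - a * c)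
    (h3 : (c : ℤ) ∣ sc ^ 2 + a * b) :
    ∃ x y z : ℤ, z ≠ 0 ∧ (a : ℤ) * x ^ 2 + b * y ^ 2 = c * z ^ 2 := by
  have hc0 : 0 < c := hc.pos
  have hac' : IsCoprime (a : ℤ) c := by
    rw [Nat.isCoprime_iff_coprime]
    exact ((Nat.Prime.coprime_iff_not_dvd hc).2 hca).symm
  have hbc' : IsCoprime (b : ℤ) c := by
    rw [Nat.isCoprime_iff_coprime]
    exact ((Nat.Prime.coprime_iff_not_dvd hc).2 hcb).symm
  have hab' : IsCoprime (a : ℤ) b := Nat.isCoprime_iff_coprime.2 hab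
  -- the box
  obtain ⟨x, y, z, hne, hx, hy, hz, ea, eb, ec⟩ := pigeon a b c (Nat.sqrt (b * c) + 1)
    (Nat.sqrt (a * c) + 1) (Nat.sqrt (a * b - 1) + 1) ha hb hc0 (by
      have e1 : b * c < (Nat.sqrt (b * c) + 1) * (Nat.sqrt (b * c) + 1) := Nat.lt_succ_sqrt _
      have e2 : a * c < (Nat.sqrt (a * c) + 1) * (Nat.sqrt (a * c) + 1) := Nat.lt_succ_sqrt _
      have e3 : a * b - 1 < (Nat.sqrt (a * b - 1) + 1) * (Nat.sqrt (a * b - 1) + 1) :=
        Nat.lt_succ_sqrt _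
      have e4 : 0 < a * b := Nat.mul_pos ha hb
      set i := Nat.sqrt (b * c) + 1
      set j := Nat.sqrt (a * c) + 1
      set k := Nat.sqrt (a * b - 1) + 1
      have e5 : a * b ≤ k * k := by omega
      have e6 : (a * b * c) * (a * b * c) < (i * j * k) * (i * j * k) := by
        calc (a * b * c) * (a * b * c) = (b * c) * (a * c) * (a * b) := by ring
          _ < (i * i) * (j * j) * (a * b) := by
              apply Nat.mul_lt_mul_of_pos_right _ e4
              exact Nat.mul_lt_mul'' e1 e2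
          _ ≤ (i * i) * (j * j) * (k * k) := Nat.mul_le_mul_left _ e5
          _ = (i * j * k) * (i * j * k) := by ring
      exact Nat.mul_self_lt_mul_self_iff.1 e6) sa sb sc
  have hx2 : x ^ 2 ≤ b * c := by
    have e1 : |x| ≤ Nat.sqrt (b * c) := by
      have := hx
      push_cast at this
      omega
    have e2 : ((Nat.sqrt (b * c) : ℕ) : ℤ) * Nat.sqrt (b * c) ≤ b * c := by
      exact_mod_cast Nat.sqrt_le (b * c)
    rw [← sq_abs]
    nlinarith [abs_nonneg x]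
  have hy2 : y ^ 2 ≤ a * c := by
    have e1 : |y| ≤ Nat.sqrt (a * c) := by
      have := hy
      push_cast at this
      omega
    have e2 : ((Nat.sqrt (a * c) : ℕ) : ℤ) * Nat.sqrt (a * c) ≤ a * c := by
      exact_mod_cast Nat.sqrt_le (a * c)
    rw [← sq_abs]
    nlinarith [abs_nonneg y]
  have hz2 : z ^ 2 < a * b := by
    have e1 : |z| ≤ Nat.sqrt (a * b - 1) := by
      have := hz
      push_cast at this
      omega
    have e2 : ((Nat.sqrt (a * b - 1) : ℕ) : ℤ) * Nat.sqrt (a * b - 1) ≤ a * b - 1 := by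
      have e3 := Nat.sqrt_le (a * b - 1)
      have e4 : 0 < a * b := Nat.mul_pos ha hb
      zify [Nat.one_le_iff_ne_zero.2 e4.ne'] at e3
      exact e3
    rw [← sq_abs]
    nlinarith [abs_nonneg z]
  -- the congruence for the form
  have da : (a : ℤ) ∣ b * y ^ 2 - c * z ^ 2 := by
    have e1 : (a : ℤ) ∣ b * (b * y ^ 2 - c * z ^ 2) := by
      have e2 : (b : ℤ) * (b * y ^ 2 - c * z ^ 2) =
          (b * y - sa * z) * (b * y + sa * z) + (sa ^ 2 - b * c) * z ^ 2 := by ring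
      rw [e2]
      exact dvd_add (Dvd.dvd.mul_right ea _) (Dvd.dvd.mul_right h1 _)
    exact hab'.dvd_of_dvd_mul_left e1
  have db : (b : ℤ) ∣ a * x ^ 2 - c * z ^ 2 := by
    have e1 : (b : ℤ) ∣ a * (a * x ^ 2 - c * z ^ 2) := by
      have e2 : (a : ℤ) * (a * x ^ 2 - c * z ^ 2) =
          (a * x - sb * z) * (a * x + sb * z) + (sb ^ 2 - a * c) * z ^ 2 := by ring
      rw [e2]
      exact dvd_add (Dvd.dvd.mul_right eb _) (Dvd.dvd.mul_right h2 _)
    exact hab'.symm.dvd_of_dvd_mul_left e1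
  have dc : (c : ℤ) ∣ a * x ^ 2 + b * y ^ 2 := by
    have e1 : (c : ℤ) ∣ a * (a * x ^ 2 + b * y ^ 2) := by
      have e2 : (a : ℤ) * (a * x ^ 2 + b * y ^ 2) =
          (a * x - sc * y) * (a * x + sc * y) + (sc ^ 2 + a * b) * y ^ 2 := by ring
      rw [e2]
      exact dvd_add (Dvd.dvd.mul_right ec _) (Dvd.dvd.mul_right h3 _)
    exact hac'.symm.dvd_of_dvd_mul_left e1
  have dabc : (a : ℤ) * b * c ∣ a * x ^ 2 + b * y ^ 2 - c * z ^ 2 := by
    have e1 : (a : ℤ) ∣ a * x ^ 2 + b * y ^ 2 - c * z ^ 2 := by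
      have : (a : ℤ) * x ^ 2 + b * y ^ 2 - c * z ^ 2 = a * x ^ 2 + (b * y ^ 2 - c * z ^ 2) := by ring
      rw [this]
      exact dvd_add (dvd_mul_right _ _) da
    have e2 : (b : ℤ) ∣ a * x ^ 2 + b * y ^ 2 - c * z ^ 2 := by
      have : (a : ℤ) * x ^ 2 + b * y ^ 2 - c * z ^ 2 = b * y ^ 2 + (a * x ^ 2 - c * z ^ 2) := by ring
      rw [this]
      exact dvd_add (dvd_mul_right _ _) db
    have e3 : (c : ℤ) ∣ a * x ^ 2 + b * y ^ 2 - c * z ^ 2 :=
      dvd_sub dc (dvd_mul_right _ _)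
    exact IsCoprime.mul_dvd (IsCoprime.mul_left hac' hbc') (hab'.mul_dvd e1 e2) e3
  obtain ⟨q, hq⟩ := dabc
  have ha' : (0 : ℤ) < a := by exact_mod_cast ha
  have hb' : (0 : ℤ) < b := by exact_mod_cast hb
  have hc' : (0 : ℤ) < c := by exact_mod_cast hc0
  have hpos : (0 : ℤ) < a * b * c := by positivity
  have hq1 : -1 < q := by
    have e1 : -((a : ℤ) * b * c) < a * x ^ 2 + b * y ^ 2 - c * z ^ 2 := by
      have : (c : ℤ) * z ^ 2 < c * (a * b) := by nlinarith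
      nlinarith [sq_nonneg x, sq_nonneg y]
    rw [hq] at e1
    by_contra h
    push Not at h
    nlinarith
  have hq2 : q ≤ 2 := by
    have e1 : a * x ^ 2 + b * y ^ 2 - c * z ^ 2 ≤ 2 * ((a : ℤ) * b * c) := by
      nlinarith [sq_nonneg z]
    rw [hq] at e1
    by_contra h
    push Not at h
    nlinarith
  have hq3 : q ≠ 2 := by
    rintro rfl
    have e1 : (a : ℤ) * x ^ 2 ≤ a * (b * c) := by nlinarith
    have e2 : (b : ℤ) * y ^ 2 ≤ b * (a * c) := by nlinarith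
    have e3 : (0 : ℤ) ≤ c * z ^ 2 := by positivity
    have e4 : (a : ℤ) * x ^ 2 = a * (b * c) := by nlinarith
    have e5 : x ^ 2 = b * c := mul_left_cancel₀ ha'.ne' e4
    have hcp : Prime (c : ℤ) := Nat.prime_iff_prime_int.1 hc
    have e6 : (c : ℤ) ∣ x := hcp.dvd_of_dvd_pow (e5 ▸ dvd_mul_left _ _)
    obtain ⟨w, rfl⟩ := e6
    have e7 : (c : ℤ) * (c * w ^ 2) = c * b := by linarith
    have e8 : (c : ℤ) * w ^ 2 = b := mul_left_cancel₀ hc'.ne' e7
    exact hcb (by exact_mod_cast Dvd.intro _ e8)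
  have hq4 : q = 0 ∨ q = 1 := by omega
  rcases hq4 with rfl | rfl
  · refine ⟨x, y, z, ?_, by linarith⟩
    rintro rfl
    apply hne
    have e1 : (a : ℤ) * x ^ 2 + b * y ^ 2 = 0 := by linarith
    have e2 : (0 : ℤ) ≤ a * x ^ 2 := by positivity
    have e3 : (0 : ℤ) ≤ b * y ^ 2 := by positivity
    have e4 : (a : ℤ) * x ^ 2 = 0 := by linarith
    have e5 : (b : ℤ) * y ^ 2 = 0 := by linarith
    refine ⟨?_, ?_, rfl⟩
    · exact pow_eq_zero_iff (two_ne_zero) |>.1 ((mul_eq_zero.1 e4).resolve_left ha'.ne')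
    · exact pow_eq_zero_iff (two_ne_zero) |>.1 ((mul_eq_zero.1 e5).resolve_left hb'.ne')
  · refine ⟨x * z + b * y, y * z - a * x, z ^ 2 + a * b, by positivity, ?_⟩
    have e1 : (a : ℤ) * x ^ 2 + b * y ^ 2 = a * b * c + c * z ^ 2 := by linarith
    calc (a : ℤ) * (x * z + b * y) ^ 2 + b * (y * z - a * x) ^ 2
        = (a * x ^ 2 + b * y ^ 2) * (z ^ 2 + a * b) := by ring
      _ = c * (z ^ 2 + a * b) ^ 2 := by rw [e1]; ring

/-- A Jacobi symbol one at a prime gives a square root. -/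
theorem exists_sq_of_jacobi (q : ℕ) (hq : q.Prime) (a : ℤ) (h : jacobiSym a q = 1) :
    ∃ s : ℤ, (q : ℤ) ∣ s ^ 2 - a := by
  have : Fact q.Prime := ⟨hq⟩
  have h0 : ((a : ℤ) : ZMod q) ≠ 0 := by
    intro h0
    have h1 : legendreSym q a = 0 := (legendreSym.eq_zero_iff q a).2 h0
    rw [jacobiSym.legendreSym.to_jacobiSym] at h1
    rw [h] at h1
    exact one_ne_zero h1
  have h1 : legendreSym q a = 1 := by rw [jacobiSym.legendreSym.to_jacobiSym]; exact h
  obtain ⟨r, hr⟩ := (legendreSym.eq_one_iff q h0).1 h1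
  obtain ⟨s, rfl⟩ := ZMod.intCast_surjective r
  refine ⟨s, ?_⟩
  rw [← ZMod.intCast_zmod_eq_zero_iff_dvd]
  push_cast
  rw [hr]
  ring

/-- There is an integer which is a non-residue mod an odd prime. -/
theorem exists_nonresidue (p : ℕ) (hp : p.Prime) (hp2 : p ≠ 2) :
    ∃ g : ℕ, jacobiSym g p = -1 := by
  have : Fact p.Prime := ⟨hp⟩
  obtain ⟨a, ha⟩ := FiniteField.exists_nonsquare (F := ZMod p) (by
    rw [ZMod.ringChar_zmod_n]; exact hp2)
  refine ⟨a.val, ?_⟩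
  rw [← jacobiSym.legendreSym.to_jacobiSym, legendreSym.eq_neg_one_iff']
  simpa using ha

/-- Auxiliary prime for a quaternary form: for an odd prime `p` there are arbitrarily large primes
`l ≡ 1 mod 4`, non-residues mod `p`, such that for `n` coprime to `p l` the number
`n² + p l m² + γ²` is a value of `l α² + p β²`. -/
theorem exists_aux_prime (p : ℕ) (hp : p.Prime) (hp2 : p ≠ 2) (N : ℕ) :
    ∃ l : ℕ, N < l ∧ l.Prime ∧ l % 4 = 1 ∧ jacobiSym l p = -1 ∧
      ∀ m n : ℤ, IsCoprime n (p * l) →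
        ∃ α β γ : ℚ, (n : ℚ) ^ 2 + p * l * (m : ℚ) ^ 2 + γ ^ 2 = l * α ^ 2 + p * β ^ 2 := by
  obtain ⟨g, hg⟩ := exists_nonresidue p hp hp2
  have hpodd : Odd p := hp.odd_of_ne_two hp2
  have hp4 : Nat.Coprime 4 p := by
    have : Nat.Coprime (2 ^ 2) p := Nat.Coprime.pow_left 2 ((Nat.coprime_primes Nat.prime_two hp).2
      (Ne.symm hp2))
    exact this
  have hgp : Nat.Coprime g p := by
    have h1 : jacobiSym g p ≠ 0 := by rw [hg]; norm_num
    have h2 : ¬ (jacobiSym g p = 0) := h1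
    have : NeZero p := ⟨hp.ne_zero⟩
    rw [jacobiSym.eq_zero_iff_not_coprime, not_not] at h2
    rw [Int.gcd_natCast_natCast] at h2
    exact h2
  obtain ⟨k, hk4, hkp⟩ := Nat.chineseRemainder hp4 1 g
  have hkc : Nat.Coprime k (4 * p) := by
    apply Nat.Coprime.mul_right
    · have : Nat.gcd k 4 = Nat.gcd 1 4 := Nat.ModEq.gcd_eq hk4
      rw [Nat.Coprime, this, Nat.gcd_one_left]
    · have : Nat.gcd k p = Nat.gcd g p := Nat.ModEq.gcd_eq hkp
      rw [Nat.Coprime, this]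
      exact hgp
  obtain ⟨l, hlN, hl, hlk⟩ := Nat.forall_exists_prime_gt_and_modEq (max N p)
    (q := 4 * p) (a := k) (by have := hp.pos; omega) hkc
  have hlp : p < l := lt_of_le_of_lt (le_max_right _ _) hlN
  have hl4 : l % 4 = 1 := by
    have h1 : l ≡ k [MOD 4] := hlk.of_mul_right p
    exact h1.trans hk4
  have hljp : jacobiSym l p = -1 := by
    have h1 : l ≡ g [MOD p] := (hlk.of_mul_left 4).trans hkp
    rw [jacobiSym.mod_left, ← hg, jacobiSym.mod_left (g : ℤ)]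
    congr 1
    exact_mod_cast h1
  have hl2 : l ≠ 2 := by rintro rfl; omega
  have hlodd : Odd l := hl.odd_of_ne_two hl2
  have hpl : Nat.Coprime p l := (Nat.coprime_primes hp hl).2 hlp.ne
  refine ⟨l, lt_of_le_of_lt (le_max_left _ _) hlN, hl, hl4, hljp, ?_⟩
  have hpjl : jacobiSym p l = -1 := by
    rw [← hljp]
    exact (jacobiSym.quadratic_reciprocity_one_mod_four hl4 hpodd).symm
  intro m n hmn
  -- the number to represent
  obtain ⟨N0, hN0⟩ : ∃ N0 : ℕ, (N0 : ℤ) = n ^ 2 + p * l * m ^ 2 :=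
    ⟨(n ^ 2 + p * l * m ^ 2).toNat, by rw [Int.toNat_of_nonneg (by positivity)]⟩
  have hcop : IsCoprime (N0 : ℤ) (p * l) := by
    rw [hN0]
    have : IsCoprime (n ^ 2) ((p : ℤ) * l) := hmn.pow_left
    exact this.add_mul_left_left (m ^ 2)
  have hN0p : Nat.Coprime N0 p := Nat.isCoprime_iff_coprime.1 (IsCoprime.mul_right_iff.1 hcop).1
  have hN0l : Nat.Coprime N0 l := Nat.isCoprime_iff_coprime.1 (IsCoprime.mul_right_iff.1 hcop).2
  have hN0pos : 0 < N0 := by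
    rcases Nat.eq_zero_or_pos N0 with h | h
    · rw [h, Nat.coprime_zero_left] at hN0p
      exact absurd hN0p hp.one_lt.ne'
    · exact h
  obtain ⟨g', hg'⟩ := exists_nonresidue l hl hl2
  have hgl : Nat.Coprime g' l := by
    have h2 : ¬ (jacobiSym g' l = 0) := by rw [hg']; norm_num
    have : NeZero l := ⟨hl.ne_zero⟩
    rw [jacobiSym.eq_zero_iff_not_coprime, not_not] at h2
    rw [Int.gcd_natCast_natCast] at h2
    exact h2
  have hl4' : Nat.Coprime 4 l := by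
    have : Nat.Coprime (2 ^ 2) l := Nat.Coprime.pow_left 2 ((Nat.coprime_primes Nat.prime_two hl).2
      (Ne.symm hl2))
    exact this
  obtain ⟨k1, hk1p, hk1l⟩ := Nat.chineseRemainder hpl g g'
  have hcop2 : Nat.Coprime (4 * N0) (p * l) := by
    apply Nat.Coprime.mul_left
    · exact Nat.Coprime.mul_right hp4 hl4'
    · exact Nat.Coprime.mul_right hN0p hN0l
  obtain ⟨k2, hk2a, hk2b⟩ := Nat.chineseRemainder hcop2 1 k1
  have hk2c : Nat.Coprime k2 (4 * N0 * (p * l)) := by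
    apply Nat.Coprime.mul_right
    · have : Nat.gcd k2 (4 * N0) = Nat.gcd 1 (4 * N0) := Nat.ModEq.gcd_eq hk2a
      rw [Nat.Coprime, this, Nat.gcd_one_left]
    · apply Nat.Coprime.mul_right
      · have h1 : k2 ≡ g [MOD p] := (hk2b.of_mul_right l).trans hk1p
        have : Nat.gcd k2 p = Nat.gcd g p := Nat.ModEq.gcd_eq h1
        rw [Nat.Coprime, this]
        exact hgp
      · have h1 : k2 ≡ g' [MOD l] := (hk2b.of_mul_left p).trans hk1l
        have : Nat.gcd k2 l = Nat.gcd g' l := Nat.ModEq.gcd_eq h1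
        rw [Nat.Coprime, this]
        exact hgl
  obtain ⟨q, hqN, hq, hqk⟩ := Nat.forall_exists_prime_gt_and_modEq (N0 + p + l)
    (q := 4 * N0 * (p * l)) (a := k2) (by
      have := hp.pos
      have := hl.pos
      positivity) hk2c
  have hqa : q ≡ 1 [MOD 4 * N0] := (hqk.of_mul_right (p * l)).trans hk2a
  have hqb : q ≡ k1 [MOD p * l] := (hqk.of_mul_left (4 * N0)).trans hk2b
  have hqp : q ≡ g [MOD p] := (hqb.of_mul_right l).trans hk1p
  have hql : q ≡ g' [MOD l] := (hqb.of_mul_left p).trans hk1l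
  have hq4 : q % 4 = 1 := hqa.of_mul_right N0
  have hq2 : q ≠ 2 := by rintro rfl; omega
  have hqodd : Odd q := hq.odd_of_ne_two hq2
  have hqjp : jacobiSym q p = -1 := by
    rw [jacobiSym.mod_left, ← hg, jacobiSym.mod_left (g : ℤ)]
    congr 1
    exact_mod_cast hqp
  have hqjl : jacobiSym q l = -1 := by
    rw [jacobiSym.mod_left, ← hg', jacobiSym.mod_left (g' : ℤ)]
    congr 1
    exact_mod_cast hql
  have hpjq : jacobiSym p q = -1 := by
    rw [← hqjp]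
    exact (jacobiSym.quadratic_reciprocity_one_mod_four hq4 hpodd).symm
  have hljq : jacobiSym l q = -1 := by
    rw [← hqjl]
    exact (jacobiSym.quadratic_reciprocity_one_mod_four hq4 hlodd).symm
  have hnegq : jacobiSym (-1) q = 1 := by
    rw [jacobiSym.at_neg_one hqodd, ZMod.χ₄_nat_one_mod_four hq4]
  -- first equation
  have hN0q : ¬ q ∣ N0 := fun h => by
    have := Nat.le_of_dvd hN0pos h
    omega
  obtain ⟨sc, hsc⟩ : ∃ s : ℤ, (q : ℤ) ∣ s ^ 2 - (-(N0 : ℤ)) := by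
    apply exists_sq_of_jacobi q hq
    rw [jacobiSym.mod_right _ hqodd]
    have h1 : q % (4 * (-(N0 : ℤ)).natAbs) = 1 := by
      rw [Int.natAbs_neg, Int.natAbs_natCast]
      have h2 : q % (4 * N0) = 1 % (4 * N0) := hqa
      rw [h2]
      exact Nat.mod_eq_of_lt (by omega)
    rw [h1]
    exact jacobiSym.one_right _
  obtain ⟨x1, y1, z1, hz1, he1⟩ := ternary_solve 1 N0 q one_pos hN0pos hq (Nat.coprime_one_left _)
    (by rw [Nat.dvd_one]; exact hq.one_lt.ne') hN0q 0 1 sc (by simp)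
    (by
      have h1 : (N0 : ℤ) ∣ (q : ℤ) - 1 := by
        have h2 : 1 ≡ q [MOD N0] := (hqa.of_mul_left 4).symm
        have h3 := (Nat.modEq_iff_dvd).1 h2
        exact_mod_cast h3
      have h4 : (1 : ℤ) ^ 2 - ((1 : ℕ) : ℤ) * q = -((q : ℤ) - 1) := by push_cast; ring
      rw [h4]
      exact (dvd_neg).2 h1)
    (by
      have h4 : sc ^ 2 + ((1 : ℕ) : ℤ) * N0 = sc ^ 2 - (-(N0 : ℤ)) := by push_cast; ring
      rw [h4]
      exact hsc)
  -- second equation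
  obtain ⟨ta, hta⟩ : ∃ s : ℤ, (l : ℤ) ∣ s ^ 2 - (p * q : ℤ) := by
    apply exists_sq_of_jacobi l hl
    rw [jacobiSym.mul_left, hpjl, hqjl]
    norm_num
  obtain ⟨tb, htb⟩ : ∃ s : ℤ, (p : ℤ) ∣ s ^ 2 - (l * q : ℤ) := by
    apply exists_sq_of_jacobi p hp
    rw [jacobiSym.mul_left, hljp, hqjp]
    norm_num
  obtain ⟨tc, htc⟩ : ∃ s : ℤ, (q : ℤ) ∣ s ^ 2 - (-1 * (l * p) : ℤ) := by
    apply exists_sq_of_jacobi q hq
    rw [jacobiSym.mul_left, jacobiSym.mul_left, hnegq, hljq, hpjq]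
    norm_num
  obtain ⟨x2, y2, z2, hz2, he2⟩ := ternary_solve l p q hl.pos hp.pos hq hpl.symm
    (fun h => by
      have := Nat.le_of_dvd hl.pos h
      omega)
    (fun h => by
      have := Nat.le_of_dvd hp.pos h
      omega) ta tb tc hta htb (by
      have h4 : tc ^ 2 + (l : ℤ) * p = tc ^ 2 - (-1 * (l * p) : ℤ) := by ring
      rw [h4]
      exact htc)
  have hy1 : y1 ≠ 0 := by
    rintro rfl
    have h1 : IsSquare (q : ℚ) := by
      refine ⟨(x1 : ℚ) / z1, ?_⟩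
      have hz1' : (z1 : ℚ) ≠ 0 := by exact_mod_cast hz1
      have h2 : (x1 : ℚ) ^ 2 = q * (z1 : ℚ) ^ 2 := by
        have : (x1 : ℤ) ^ 2 = q * z1 ^ 2 := by
          have h3 := he1
          push_cast at h3
          linarith
        exact_mod_cast this
      rw [div_mul_div_comm, ← pow_two, ← pow_two, h2]
      field_simp
    rw [Rat.isSquare_natCast_iff] at h1
    exact hq.prime.not_isSquare h1
  have hz1' : (z1 : ℚ) ≠ 0 := by exact_mod_cast hz1
  have hz2' : (z2 : ℚ) ≠ 0 := by exact_mod_cast hz2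
  have hy1' : (y1 : ℚ) ≠ 0 := by exact_mod_cast hy1
  have f1 : (x1 : ℚ) ^ 2 + N0 * (y1 : ℚ) ^ 2 = q * (z1 : ℚ) ^ 2 := by
    have h3 := he1
    push_cast at h3
    have h4 : (x1 : ℤ) ^ 2 + N0 * y1 ^ 2 = q * z1 ^ 2 := by linarith
    exact_mod_cast h4
  have f2 : (l : ℚ) * (x2 : ℚ) ^ 2 + p * (y2 : ℚ) ^ 2 = q * (z2 : ℚ) ^ 2 := by
    exact_mod_cast he2
  have f3 : (n : ℚ) ^ 2 + p * l * (m : ℚ) ^ 2 = N0 := by
    have h4 : (n : ℤ) ^ 2 + p * l * m ^ 2 = N0 := hN0.symm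
    exact_mod_cast h4
  refine ⟨x2 * z1 / (z2 * y1), y2 * z1 / (z2 * y1), x1 / y1, ?_⟩
  rw [f3]
  have f4 : (N0 : ℚ) + (x1 / y1) ^ 2 = q * (z1 : ℚ) ^ 2 / (y1 : ℚ) ^ 2 := by
    rw [← f1]; field_simp; ring
  have f5 : (l : ℚ) * (x2 * z1 / (z2 * y1)) ^ 2 + p * (y2 * z1 / (z2 * y1)) ^ 2 =
      (l * (x2 : ℚ) ^ 2 + p * (y2 : ℚ) ^ 2) * (z1 : ℚ) ^ 2 / ((z2 : ℚ) ^ 2 * (y1 : ℚ) ^ 2) := by
    field_simp
  rw [f4, f5, f2]
  field_simp

end Pool.Agent.H42
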