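import Mathlib
import Pool.Agent.Lib.H60.UDef.Defs
import Pool.Agent.Lib.H42.Congruent

/-!
# Quadratic fields, congruent numbers and rank-stable congruent number curves (helper42)
-/

set_option autoImplicit false

open WeierstrassCurve WeierstrassCurve.Affine Pool.Agent.H60.UDef

namespace Pool.Agent.H42

/-- A rational number is congruent if it is the area of a right triangle with rational sides. -/
def IsCongruent (n : ℚ) : Prop :=
  ∃ a b c : ℚ, 0 < a ∧ 0 < b ∧ 0 < c ∧ a ^ 2 + b ^ 2 = c ^ 2 ∧ a * b / 2 = n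

/-- Congruent numbers and the rational points of `y² = x³ - n² x`. -/
theorem isCongruent_iff (n : ℚ) :
    IsCongruent n ↔ 0 < n ∧ ∃ x y : ℚ, y ≠ 0 ∧ y ^ 2 = x ^ 3 - n ^ 2 * x := by
  constructor
  · rintro ⟨a, b, c, ha, hb, hc, h, rfl⟩
    refine ⟨by positivity, (c / 2) ^ 2, c * (a ^ 2 - b ^ 2) / 8, ?_, ?_⟩
    · intro h0
      have h1 : a ^ 2 - b ^ 2 = 0 := by
        have : c * (a ^ 2 - b ^ 2) = 0 := by linarith
        exact (mul_eq_zero.1 this).resolve_left hc.ne'
      have h2 : 2 * a ^ 2 = c ^ 2 := by linarith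
      refine sq_ne_two (c / a) ?_
      rw [div_pow, ← h2]
      field_simp
    · have h1 : c ^ 4 = (a ^ 2 + b ^ 2) ^ 2 := by rw [h]; ring
      linear_combination (c ^ 2 / 64 * (a ^ 2 + b ^ 2 + c ^ 2)) * h
  · rintro ⟨hn, x, y, hy, h⟩
    have hx : x ≠ 0 := by
      rintro rfl
      apply hy
      have : y ^ 2 = 0 := by rw [h]; ring
      exact pow_eq_zero_iff (two_ne_zero) |>.1 this
    have hx2 : x ^ 2 - n ^ 2 ≠ 0 := by
      intro h0
      apply hy
      have : y ^ 2 = 0 := by rw [h]; linear_combination x * h0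
      exact pow_eq_zero_iff (two_ne_zero) |>.1 this
    have hx3 : x ^ 2 + n ^ 2 ≠ 0 := by positivity
    refine ⟨|(x ^ 2 - n ^ 2) / y|, |2 * n * x / y|, |(x ^ 2 + n ^ 2) / y|, ?_, ?_, ?_, ?_, ?_⟩
    · exact abs_pos.2 (div_ne_zero hx2 hy)
    · exact abs_pos.2 (div_ne_zero (mul_ne_zero (mul_ne_zero two_ne_zero hn.ne') hx) hy)
    · exact abs_pos.2 (div_ne_zero hx3 hy)
    · rw [sq_abs, sq_abs, sq_abs]
      field_simp
      ring
    · rw [← abs_mul, div_mul_div_comm]
      have h1 : (x ^ 2 - n ^ 2) * (2 * n * x) / (y * y) = 2 * n := by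
        rw [← pow_two, h, div_eq_iff]
        · ring
        · rw [← h]; positivity
      rw [h1, abs_of_pos (by positivity)]
      ring

/-- Rational right triangles: `s² (t³ - t)` is congruent for `t > 1`, `s > 0`. -/
theorem isCongruent_param (s t : ℚ) (hs : 0 < s) (ht : 1 < t) :
    IsCongruent (s ^ 2 * (t ^ 3 - t)) := by
  refine ⟨s * (t ^ 2 - 1), s * (2 * t), s * (t ^ 2 + 1), ?_, ?_, ?_, by ring, by ring⟩
  · have : 0 < t ^ 2 - 1 := by nlinarith
    positivity
  · positivity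
  · positivity

theorem isCongruent_sq_mul (s n : ℚ) (hs : s ≠ 0) (h : IsCongruent n) :
    IsCongruent (s ^ 2 * n) := by
  obtain ⟨a, b, c, ha, hb, hc, h1, h2⟩ := h
  have hs' : 0 < |s| := abs_pos.2 hs
  refine ⟨|s| * a, |s| * b, |s| * c, by positivity, by positivity, by positivity, ?_, ?_⟩
  · rw [mul_pow, mul_pow, mul_pow, ← mul_add, h1]
  · rw [← h2, ← sq_abs s]; ring

theorem isCongruent_five : IsCongruent 5 := by
  have := isCongruent_param (8 / 3) (5 / 4) (by norm_num) (by norm_num)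
  norm_num at this
  exact this

theorem isCongruent_six : IsCongruent 6 := by
  have := isCongruent_param 1 2 (by norm_num) (by norm_num)
  norm_num at this
  exact this

theorem isCongruent_seven : IsCongruent 7 := by
  have := isCongruent_param (27 / 20) (16 / 9) (by norm_num) (by norm_num)
  norm_num at this
  exact this

theorem not_isCongruent_one : ¬ IsCongruent 1 := by
  rw [isCongruent_iff]
  rintro ⟨-, x, y, hy, h⟩
  exact hy (ec_neg1 x y (by rw [h]; ring))

theorem not_isCongruent_two : ¬ IsCongruent 2 := by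
  rw [isCongruent_iff]
  rintro ⟨-, x, y, hy, h⟩
  exact hy (ec_neg4 x y (by rw [h]; ring))

/-- The equation of the base change of `shortW`. -/
theorem equation_shortW {F K : Type} [Field F] [Field K] [Algebra F K] (a b : F) (x y : K) :
    ((shortW a b)⁄K).Equation x y ↔
      y ^ 2 = x ^ 3 + algebraMap F K a * x + algebraMap F K b := by
  rw [equation_iff]
  simp [shortW]

theorem nonsingular_shortW {F K : Type} [Field F] [Field K] [Algebra F K] (a b : F) (x y : K)
    (h2 : (2 : K) ≠ 0) (hy : y ≠ 0)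
    (h : y ^ 2 = x ^ 3 + algebraMap F K a * x + algebraMap F K b) :
    ((shortW a b)⁄K).Nonsingular x y := by
  rw [nonsingular_iff']
  refine ⟨(equation_shortW a b x y).2 h, Or.inr ?_⟩
  simpa [shortW, WeierstrassCurve.map] using ⟨h2, hy⟩

theorem negY_shortW {F K : Type} [Field F] [Field K] [Algebra F K] (a b : F) (x y : K) :
    ((shortW a b)⁄K).negY x y = -y := by
  simp [negY, shortW]

/-- The doubling map on the normalized `x`-coordinate of a congruent number curve. -/
def dblX (X : ℚ) : ℚ := (X ^ 2 + 1) ^ 2 / (4 * X * (X ^ 2 - 1))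

theorem val_four : padicValRat 2 (4 : ℚ) = 2 := by
  have : (4 : ℚ) = (2 : ℕ) ^ 2 := by norm_num
  rw [this, padicValRat.pow, padicValRat.self (by norm_num)]
  norm_num

theorem val_dblX (X : ℚ) (hX : X ≠ 0) (h1 : X ^ 2 - 1 ≠ 0) :
    padicValRat 2 (dblX X) = 2 * padicValRat 2 (X ^ 2 + 1) - 2 - padicValRat 2 X -
      padicValRat 2 (X ^ 2 - 1) := by
  have h2 : X ^ 2 + 1 ≠ 0 := by positivity
  rw [dblX, padicValRat.div (pow_ne_zero 2 h2) (mul_ne_zero (mul_ne_zero four_ne_zero hX) h1),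
    padicValRat.mul (mul_ne_zero four_ne_zero hX) h1, padicValRat.mul four_ne_zero hX,
    padicValRat.pow, val_four]
  push_cast
  ring

theorem val_dbl_neg (X : ℚ) (hv : padicValRat 2 X < 0) :
    padicValRat 2 (dblX X) = padicValRat 2 X - 2 := by
  have hX : X ≠ 0 := by
    rintro rfl
    simp at hv
  have h0 : padicValRat 2 (X ^ 2) = 2 * padicValRat 2 X := by
    rw [padicValRat.pow]; norm_num
  have h1 : X ^ 2 - 1 ≠ 0 := by
    intro h
    have h2 : X ^ 2 = 1 := by linarith
    rw [h2, padicValRat.one] at h0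
    omega
  have h2 : X ^ 2 + 1 ≠ 0 := by positivity
  have h3 : padicValRat 2 (X ^ 2 + 1) = 2 * padicValRat 2 X := by
    rw [padicValRat.add_eq_of_lt h2 (pow_ne_zero 2 hX) one_ne_zero, h0]
    rw [h0, padicValRat.one]
    omega
  have h4 : padicValRat 2 (X ^ 2 - 1) = 2 * padicValRat 2 X := by
    rw [sub_eq_add_neg] at h1 ⊢
    rw [padicValRat.add_eq_of_lt h1 (pow_ne_zero 2 hX) (neg_ne_zero.2 one_ne_zero), h0]
    rw [h0, padicValRat.neg, padicValRat.one]
    omega
  rw [val_dblX X hX h1, h3, h4]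
  ring

theorem val_dbl_lt (X : ℚ) (hX : X ≠ 0) (h1 : X ^ 2 - 1 ≠ 0) :
    padicValRat 2 (dblX X) < 0 := by
  have h2 : X ^ 2 + 1 ≠ 0 := by positivity
  have h0 : padicValRat 2 (X ^ 2) = 2 * padicValRat 2 X := by
    rw [padicValRat.pow]; norm_num
  rcases lt_trichotomy (padicValRat 2 X) 0 with hv | hv | hv
  · rw [val_dbl_neg X hv]
    omega
  · have h5 : 3 ≤ padicValRat 2 (X ^ 2 - 1) := by
      have hn : (X.num : ℤ) % 2 = 1 ∧ (X.den : ℤ) % 2 = 1 := by
        have h6 : padicValRat 2 X = (padicValInt 2 X.num : ℤ) - padicValNat 2 X.den := rfl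
        rw [hv] at h6
        have h7 : X.num.natAbs.Coprime X.den := X.reduced
        have hnn : X.num ≠ 0 := Rat.num_ne_zero.2 hX
        by_cases ha : (2 : ℤ) ∣ X.num
        · have hb : ¬ 2 ∣ X.den := by
            intro hb
            have h8 : 2 ∣ X.num.natAbs := by omega
            have := Nat.dvd_gcd h8 hb
            rw [h7] at this
            omega
          have h9 : padicValNat 2 X.den = 0 := padicValNat.eq_zero_of_not_dvd hb
          have h10 : ((2 : ℕ) : ℤ) ^ 1 ∣ X.num := by simpa using ha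
          rw [padicValInt_dvd_iff (p := 2)] at h10
          omega
        · have h9 : padicValInt 2 X.num = 0 := padicValInt.eq_zero_of_not_dvd (by exact_mod_cast ha)
          have hb : ¬ 2 ∣ X.den := by
            intro hb
            have := one_le_padicValNat_of_dvd X.den_nz hb
            omega
          omega
      have e1 : X ^ 2 - 1 = ((X.num ^ 2 - (X.den : ℤ) ^ 2 : ℤ) : ℚ) / (((X.den : ℤ) ^ 2 : ℤ) : ℚ) := by
        have hd : (X.den : ℚ) ≠ 0 := by exact_mod_cast X.den_nz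
        have : (X.num : ℚ) = X * X.den := (Rat.mul_den_eq_num X).symm
        push_cast
        rw [this]
        field_simp
      have e2 : (X.num ^ 2 - (X.den : ℤ) ^ 2 : ℤ) ≠ 0 := by
        intro h
        rw [h] at e1
        simp at e1
        exact h1 e1
      have e3 : ((X.den : ℤ) ^ 2 : ℤ) ≠ 0 := by
        have : (X.den : ℤ) ≠ 0 := by exact_mod_cast X.den_nz
        positivity
      rw [e1, padicValRat.div (by exact_mod_cast e2) (by exact_mod_cast e3), padicValRat.of_int,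
        padicValRat.of_int]
      have e4 : padicValInt 2 ((X.den : ℤ) ^ 2) = 0 := by
        apply padicValInt.eq_zero_of_not_dvd
        intro h
        have h' : (2 : ℤ) ∣ (X.den : ℤ) ^ 2 := h
        have := Int.prime_two.dvd_of_dvd_pow h'
        omega
      have e5 : (2 : ℤ) ^ 3 ∣ (X.num ^ 2 - (X.den : ℤ) ^ 2) := by
        obtain ⟨k, hk⟩ : ∃ k, X.num = 2 * k + 1 := ⟨X.num / 2, by omega⟩
        obtain ⟨l, hl⟩ : ∃ l, (X.den : ℤ) = 2 * l + 1 := ⟨(X.den : ℤ) / 2, by omega⟩
        rw [hk, hl]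
        have h1 : (2 : ℤ) ∣ k * (k + 1) := (Int.even_mul_succ_self k).two_dvd
        have h2 : (2 : ℤ) ∣ l * (l + 1) := (Int.even_mul_succ_self l).two_dvd
        have h3 : (2 * k + 1) ^ 2 - (2 * l + 1) ^ 2 = 4 * (k * (k + 1) - l * (l + 1)) := by ring
        rw [h3, show (2 : ℤ) ^ 3 = 4 * 2 by norm_num]
        exact mul_dvd_mul_left 4 (dvd_sub h1 h2)
      have e6 := (padicValInt_dvd_iff (p := 2) 3 (X.num ^ 2 - (X.den : ℤ) ^ 2)).1
        (by exact_mod_cast e5)
      rw [e4]
      omega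
    have h6 : padicValRat 2 (X ^ 2 + 1) = 1 := by
      have e1 : X ^ 2 + 1 = 2 + (X ^ 2 - 1) := by ring
      have e2 : padicValRat 2 (2 : ℚ) = 1 := by
        have := padicValRat.self (p := 2) (by norm_num)
        exact_mod_cast this
      rw [e1, padicValRat.add_eq_of_lt (by rw [← e1]; exact h2) two_ne_zero h1 (by rw [e2]; omega),
        e2]
    rw [val_dblX X hX h1, h6]
    omega
  · have h3 : padicValRat 2 (X ^ 2 + 1) = 0 := by
      rw [add_comm] at h2 ⊢
      rw [padicValRat.add_eq_of_lt h2 one_ne_zero (pow_ne_zero 2 hX), padicValRat.one]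
      rw [h0, padicValRat.one]
      omega
    have h4 : padicValRat 2 (X ^ 2 - 1) = 0 := by
      rw [sub_eq_add_neg, add_comm] at h1 ⊢
      rw [padicValRat.add_eq_of_lt h1 (neg_ne_zero.2 one_ne_zero) (pow_ne_zero 2 hX),
        padicValRat.neg, padicValRat.one]
      rw [h0, padicValRat.neg, padicValRat.one]
      omega
    have h1' : X ^ 2 - 1 ≠ 0 := h1
    rw [val_dblX X hX h1, h3, h4]
    omega

/-- Doubling a point with `y ≠ 0`. -/
theorem two_nsmul_some (I : DecidableEq ℚ) (n x y : ℚ) (hn : n ≠ 0) (hy : y ≠ 0)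
    (h : ((shortW (-n ^ 2) 0)⁄ℚ).Nonsingular x y) :
    ∃ x' y' : ℚ, ∃ h' : ((shortW (-n ^ 2) 0)⁄ℚ).Nonsingular x' y',
      (Point.some x y h + Point.some x y h : ((shortW (-n ^ 2) 0)⁄ℚ).Point) =
        Point.some x' y' h' ∧ x' / n = dblX (x / n) := by
  have heq : y ^ 2 = x ^ 3 + algebraMap ℚ ℚ (-n ^ 2) * x + algebraMap ℚ ℚ 0 :=
    (equation_shortW _ _ _ _).1 h.1
  have heq' : y ^ 2 = x ^ 3 - n ^ 2 * x := by
    rw [heq]; simp; ring
  have hy2 : y ≠ ((shortW (-n ^ 2) 0)⁄ℚ).negY x y := by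
    rw [negY_shortW]
    intro h
    exact hy (by linarith)
  refine ⟨_, _, _, Point.add_self_of_Y_ne hy2, ?_⟩
  rw [slope_of_Y_ne rfl hy2, negY_shortW]
  simp only [addX, shortW, dblX]
  simp
  have hx : x ≠ 0 := by
    rintro rfl
    apply hy
    have : y ^ 2 = 0 := by rw [heq']; ring
    exact pow_eq_zero_iff (two_ne_zero) |>.1 this
  have hx2 : x ^ 2 - n ^ 2 ≠ 0 := by
    intro h0
    apply hy
    have : y ^ 2 = 0 := by rw [heq']; linear_combination x * h0
    exact pow_eq_zero_iff (two_ne_zero) |>.1 this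
  have h4 : x * (x ^ 2 - n ^ 2) = y ^ 2 := by rw [heq']; ring
  have e1 : (x / n) ^ 2 - 1 = (x ^ 2 - n ^ 2) / n ^ 2 := by field_simp
  have e2 : ((3 * x ^ 2 + -n ^ 2) / (y + y)) ^ 2 =
      (3 * x ^ 2 - n ^ 2) ^ 2 / (4 * (x * (x ^ 2 - n ^ 2))) := by
    rw [div_pow, h4]; congr 1 <;> ring
  rw [e1, e2]
  field_simp
  ring

/-- A point with `y ≠ 0` on `y² = x³ - n² x` has infinite order. -/
theorem infinite_order (I : DecidableEq ℚ) (n x y : ℚ) (hn : n ≠ 0) (hy : y ≠ 0)
    (h : ((shortW (-n ^ 2) 0)⁄ℚ).Nonsingular x y) (k : ℕ) (hk : 0 < k) :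
    k • (Point.some x y h : ((shortW (-n ^ 2) 0)⁄ℚ).Point) ≠ 0 := by
  set P : ((shortW (-n ^ 2) 0)⁄ℚ).Point := Point.some x y h with hP
  -- the valuations of the multiples `2^(j+1) P`
  have key : ∃ v : ℤ, v < 0 ∧ ∀ j : ℕ, ∃ x' y' : ℚ,
      ∃ h' : ((shortW (-n ^ 2) 0)⁄ℚ).Nonsingular x' y',
        2 ^ (j + 1) • P = Point.some x' y' h' ∧ padicValRat 2 (x' / n) = v - 2 * j := by
    have h0 : ∀ (x y : ℚ) (h : ((shortW (-n ^ 2) 0)⁄ℚ).Nonsingular x y), y ≠ 0 →
        x ≠ 0 ∧ x ^ 2 - n ^ 2 ≠ 0 := by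
      intro x y h hy
      have heq : y ^ 2 = x ^ 3 + algebraMap ℚ ℚ (-n ^ 2) * x + algebraMap ℚ ℚ 0 :=
        (equation_shortW _ _ _ _).1 h.1
      have heq' : y ^ 2 = x ^ 3 - n ^ 2 * x := by
        rw [heq]; simp; ring
      constructor
      · rintro rfl
        apply hy
        have : y ^ 2 = 0 := by rw [heq']; ring
        exact pow_eq_zero_iff (two_ne_zero) |>.1 this
      · intro h0
        apply hy
        have : y ^ 2 = 0 := by rw [heq']; linear_combination x * h0
        exact pow_eq_zero_iff (two_ne_zero) |>.1 this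
    obtain ⟨x₁, y₁, h₁, e1, e2⟩ := two_nsmul_some I n x y hn hy h
    have hX : x / n ≠ 0 := div_ne_zero (h0 x y h hy).1 hn
    have hX2 : (x / n) ^ 2 - 1 ≠ 0 := by
      have : (x / n) ^ 2 - 1 = (x ^ 2 - n ^ 2) / n ^ 2 := by field_simp
      rw [this]
      exact div_ne_zero (h0 x y h hy).2 (pow_ne_zero 2 hn)
    refine ⟨padicValRat 2 (x₁ / n), by rw [e2]; exact val_dbl_lt _ hX hX2, ?_⟩
    intro j
    induction j with
    | zero =>
      refine ⟨x₁, y₁, h₁, ?_, by simp⟩
      rw [zero_add, pow_one, two_nsmul, hP, e1]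
    | succ j ih =>
      obtain ⟨x', y', h', e3, e4⟩ := ih
      have hneg : padicValRat 2 (x' / n) < 0 := by
        have := val_dbl_lt _ hX hX2
        rw [← e2] at this
        rw [e4]
        omega
      have hy' : y' ≠ 0 := by
        rintro rfl
        have heq : (0 : ℚ) ^ 2 = x' ^ 3 + algebraMap ℚ ℚ (-n ^ 2) * x' + algebraMap ℚ ℚ 0 :=
          (equation_shortW _ _ _ _).1 h'.1
        have heq' : x' * (x' ^ 2 - n ^ 2) = 0 := by
          simp at heq
          linear_combination -heq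
        rcases mul_eq_zero.1 heq' with h0 | h0
        · rw [h0] at hneg
          simp at hneg
        · have h1 : (x' / n) ^ 2 = 1 := by
            rw [div_pow, div_eq_one_iff_eq (pow_ne_zero 2 hn)]
            linarith
          have h2 : padicValRat 2 ((x' / n) ^ 2) = 2 * padicValRat 2 (x' / n) := by
            rw [padicValRat.pow]; norm_num
          rw [h1, padicValRat.one] at h2
          omega
      obtain ⟨x₂, y₂, h₂, e5, e6⟩ := two_nsmul_some I n x' y' hn hy' h'
      refine ⟨x₂, y₂, h₂, ?_, ?_⟩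
      · have e7 : (2 ^ (j + 1 + 1) : ℕ) = 2 ^ (j + 1) * 2 := pow_succ _ _
        rw [e7, mul_nsmul, e3, ← e5, two_nsmul]
      · rw [e6, val_dbl_neg _ hneg, e4]
        push_cast
        ring
  obtain ⟨v, hv, key⟩ := key
  intro hk0
  have hfin : (AddSubgroup.zmultiples P : Set ((shortW (-n ^ 2) 0)⁄ℚ).Point).Finite := by
    have h1 : IsOfFinAddOrder P := isOfFinAddOrder_iff_nsmul_eq_zero.2 ⟨k, hk, hk0⟩
    exact h1.finite_zmultiples
  have hinj : Function.Injective (fun j : ℕ => 2 ^ (j + 1) • P) := by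
    intro i j hij
    simp only at hij
    obtain ⟨x₁, y₁, h₁, e1, e2⟩ := key i
    obtain ⟨x₂, y₂, h₂, e3, e4⟩ := key j
    rw [e1, e3] at hij
    have : x₁ = x₂ := (Point.some.inj hij).1
    rw [this, e4] at e2
    omega
  have hinf := Set.infinite_range_of_injective hinj
  apply hinf
  refine hfin.subset ?_
  rintro _ ⟨j, rfl⟩
  exact AddSubgroup.nsmul_mem_zmultiples P _

section Quad

variable (K : Type) [Field K] [NumberField K] (hK : Module.finrank ℚ K = 2) (d : ℚ) (δ : K)
  (hδ : δ ^ 2 = (d : K)) (hδQ : ¬ ∃ q : ℚ, (q : K) = δ)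

include hK hδQ in
theorem quad_rep (x : K) : ∃ p q : ℚ, x = (p : K) + (q : K) * δ := by
  have hli : LinearIndependent ℚ ![(1 : K), δ] := by
    rw [LinearIndependent.pair_iff]
    intro s t h
    have ht : t = 0 := by
      by_contra ht
      apply hδQ
      refine ⟨-s / t, ?_⟩
      have h1 : (s : K) + (t : K) * δ = 0 := by
        simpa [Algebra.smul_def] using h
      have ht' : (t : K) ≠ 0 := by exact_mod_cast ht
      push_cast
      rw [div_eq_iff ht']
      linear_combination -h1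
    subst ht
    refine ⟨?_, rfl⟩
    simpa [Algebra.smul_def] using h
  have hspan := hli.span_eq_top_of_card_eq_finrank (by simp [hK])
  have hx : x ∈ Submodule.span ℚ (Set.range ![(1 : K), δ]) := by rw [hspan]; trivial
  rw [Matrix.range_cons, Matrix.range_cons, Matrix.range_empty, Set.union_empty,
    Set.singleton_union, Submodule.mem_span_pair] at hx
  obtain ⟨a, b, h⟩ := hx
  refine ⟨a, b, ?_⟩
  rw [← h]
  simp [Algebra.smul_def]

include hK hδ hδQ in
theorem quad_hom (L : Type) [Field L] [Algebra ℚ L] (t : L) (ht : t ^ 2 = algebraMap ℚ L d) :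
    ∃ f : K →ₐ[ℚ] L, f δ = t := by
  have hint : IsIntegral ℚ δ := Algebra.IsIntegral.isIntegral δ
  have hadj : Algebra.adjoin ℚ {δ} = ⊤ := by
    rw [eq_top_iff]
    rintro x -
    obtain ⟨p, q, rfl⟩ := quad_rep K hK δ hδQ x
    have h1 : δ ∈ Algebra.adjoin ℚ {δ} := Algebra.subset_adjoin rfl
    have h2 : ∀ r : ℚ, (r : K) ∈ Algebra.adjoin ℚ {δ} := by
      intro r
      have := (Algebra.adjoin ℚ {δ}).algebraMap_mem r
      simpa using this
    exact add_mem (h2 p) (mul_mem (h2 q) h1)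
  have hmin : Polynomial.X ^ 2 - Polynomial.C d = minpoly ℚ δ := by
    apply minpoly.unique_of_degree_le_degree_minpoly
    · exact Polynomial.monic_X_pow_sub_C d two_ne_zero
    · simp [hδ]
    · rw [Polynomial.degree_X_pow_sub_C two_pos]
      have h1 : 2 ≤ (minpoly ℚ δ).natDegree := by
        rw [minpoly.two_le_natDegree_iff hint]
        rintro ⟨q, hq⟩
        exact hδQ ⟨q, by simpa using hq⟩
      rw [Polynomial.degree_eq_natDegree (minpoly.ne_zero hint)]
      exact_mod_cast h1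
  let pb := PowerBasis.ofAdjoinEqTop hint hadj
  have hgen : pb.gen = δ := PowerBasis.ofAdjoinEqTop_gen hint hadj
  have hroot : Polynomial.aeval t (minpoly ℚ pb.gen) = 0 := by
    rw [hgen, ← hmin]
    simp [ht]
  exact ⟨pb.lift t hroot, (congrArg _ hgen.symm).trans (pb.lift_gen t hroot)⟩

include hK hδ hδQ in
theorem quad_separated (hd : 0 < d) : RealSeparated ℚ K := by
  intro x hx
  obtain ⟨p, q, rfl⟩ := quad_rep K hK δ hδQ x
  have hq : q ≠ 0 := by
    rintro rfl
    exact hx ⟨p, by simp⟩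
  have hs : (√(d : ℝ)) ^ 2 = (d : ℝ) := Real.sq_sqrt (by exact_mod_cast hd.le)
  obtain ⟨f, hf⟩ := quad_hom K hK d δ hδ hδQ ℝ √(d : ℝ) (by rw [hs]; simp)
  obtain ⟨g, hg⟩ := quad_hom K hK d δ hδ hδQ ℝ (-√(d : ℝ)) (by rw [neg_sq, hs]; simp)
  refine ⟨f.toRingHom, g.toRingHom, ?_, ?_⟩
  · intro c
    simp
  · intro h
    simp at h
    rw [hf, hg] at h
    have h1 : √(d : ℝ) ≠ 0 := by
      have : 0 < √(d : ℝ) := Real.sqrt_pos.2 (by exact_mod_cast hd)
      exact this.ne'
    rcases h with h | h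
    · exact h1 (by linarith)
    · exact hq h

include hK hδ hδQ in
/-- The congruent number curve for `d D` is rank-stable in `ℚ(√d)` if `D` is not congruent. -/
theorem quad_rankStable (D : ℚ) (hd0 : d ≠ 0) (h0 : D ≠ 0)
    (h1 : ∀ x y : ℚ, y ^ 2 = x ^ 3 - D ^ 2 * x → y = 0) (x₀ y₀ : ℚ) (hy₀ : y₀ ≠ 0)
    (h2 : y₀ ^ 2 = x₀ ^ 3 - (d * D) ^ 2 * x₀) :
    RankStable ℚ K := by
  classical
  have hδ0 : δ ≠ 0 := fun h => hδQ ⟨0, by simp [h]⟩
  have hσσ : ∃ σ : K →ₐ[ℚ] K, σ δ = -δ := quad_hom K hK d δ hδ hδQ K (-δ) (by rw [neg_sq, hδ]; simp)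
  obtain ⟨σ, hσ⟩ := hσσ
  have hσ2 : ∀ x : K, σ (σ x) = x := by
    intro x
    obtain ⟨p, q, rfl⟩ := quad_rep K hK δ hδQ x
    simp [hσ]
  have hfix : ∀ x : K, σ x = x → ∃ p : ℚ, (p : K) = x := by
    intro x hx
    obtain ⟨p, q, rfl⟩ := quad_rep K hK δ hδQ x
    refine ⟨p, ?_⟩
    simp [hσ] at hx
    have h3 : (2 : K) * ((q : K) * δ) = 0 := by linear_combination -hx
    have h4 := (mul_eq_zero.1 h3).resolve_left two_ne_zero
    rw [h4, add_zero]
  have hanti : ∀ x : K, σ x = -x → ∃ q : ℚ, (q : K) * δ = x := by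
    intro x hx
    obtain ⟨p, q, rfl⟩ := quad_rep K hK δ hδQ x
    refine ⟨q, ?_⟩
    simp [hσ] at hx
    have h3 : (2 : K) * (p : K) = 0 := by linear_combination hx
    have h4 := (mul_eq_zero.1 h3).resolve_left two_ne_zero
    rw [h4, zero_add]
  have hdD : d * D ≠ 0 := mul_ne_zero hd0 h0
  refine ⟨-(d * D) ^ 2, 0, ?_, ?_, 2, two_pos, ?_⟩
  · have : (d * D) ^ 6 ≠ 0 := pow_ne_zero 6 hdD
    intro h
    apply this
    linear_combination -h / 4
  · have hns : ((shortW (-(d * D) ^ 2) 0)⁄ℚ).Nonsingular x₀ y₀ := by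
      apply nonsingular_shortW _ _ _ _ two_ne_zero hy₀
      rw [h2]; simp; ring
    refine ⟨Point.some x₀ y₀ hns, ?_⟩
    intro n hn
    exact infinite_order _ (d * D) x₀ y₀ hdD hy₀ hns n hn
  · set E := shortW (-(d * D) ^ 2) 0 with hE
    let τ : (E⁄K).Point →+ (E⁄K).Point := Point.map σ
    have hττ : ∀ P, τ (τ P) = P := by
      rintro (_ | ⟨x, y, h⟩)
      · rfl
      · simp only [τ, Point.map_some, hσ2]
    have key : ∀ R, τ R = R → ∃ Q : (E⁄ℚ).Point, R = Point.baseChange ℚ K Q := by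
      rintro (_ | ⟨x, y, h⟩) hR
      · exact ⟨0, rfl⟩
      · have hR' : σ x = x ∧ σ y = y := by
          simp only [τ, Point.map_some] at hR
          exact Point.some.inj hR
        obtain ⟨p, hp⟩ := hfix x hR'.1
        obtain ⟨q, hq⟩ := hfix y hR'.2
        have hp' : x = Algebra.ofId ℚ K p := by rw [← hp]; simp
        have hq' : y = Algebra.ofId ℚ K q := by rw [← hq]; simp
        subst hp' hq'
        exact ⟨Point.some p q ((WeierstrassCurve.Affine.baseChange_nonsingular E (Algebra.ofId ℚ K).injective p q).mp h), rfl⟩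
    have key2 : ∀ Q : (E⁄K).Point, τ Q = -Q → Q + Q = 0 := by
      rintro (_ | ⟨x, y, h⟩) hQ
      · rfl
      · have hQ' : σ x = x ∧ σ y = -y := by
          simp only [τ, Point.map_some, Point.neg_some] at hQ
          rw [Point.some.injEq, hE, negY_shortW] at hQ
          exact hQ
        obtain ⟨p, hp⟩ := hfix x hQ'.1
        obtain ⟨q, hq⟩ := hanti y hQ'.2
        have heq : y ^ 2 = x ^ 3 + algebraMap ℚ K (-(d * D) ^ 2) * x + algebraMap ℚ K 0 :=
          (equation_shortW _ _ _ _).1 h.1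
        rw [← hp, ← hq] at heq
        have heq2 : q ^ 2 * d = p ^ 3 - (d * D) ^ 2 * p := by
          have : ((q ^ 2 * d : ℚ) : K) = ((p ^ 3 - (d * D) ^ 2 * p : ℚ) : K) := by
            push_cast
            simp at heq
            linear_combination heq - (q : K) ^ 2 * hδ
          exact_mod_cast this
        have heq3 : (q / d) ^ 2 = (p / d) ^ 3 - D ^ 2 * (p / d) := by
          field_simp
          linear_combination heq2
        have hq0 : q = 0 := by
          have := h1 _ _ heq3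
          exact (div_eq_zero_iff.1 this).resolve_right hd0
        apply Point.add_self_of_Y_eq
        rw [hE, negY_shortW, ← hq, hq0]
        simp
    intro P
    apply key
    have h3 := key2 (P - τ P) (by rw [map_sub, hττ]; abel)
    rw [map_nsmul]
    have h4 : 2 • P - 2 • τ P = 0 := by rw [← nsmul_sub, two_nsmul, h3]
    exact (sub_eq_zero.1 h4).symm

end Quad

/-- If `D > 0` is not congruent and `d D` is congruent then `ℚ(√d)` is separated by its two real
embeddings and has a rank-stable elliptic curve over `ℚ`. -/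
theorem quad_family (K : Type) [Field K] [NumberField K] (hK : Module.finrank ℚ K = 2) (d : ℚ)
    (hd : 0 < d) (δ : K) (hδ : δ ^ 2 = (d : K)) (hδQ : ¬ ∃ q : ℚ, (q : K) = δ) (D : ℚ)
    (h1 : ¬ IsCongruent D) (hD : 0 < D) (h2 : IsCongruent (d * D)) :
    RealSeparated ℚ K ∧ RankStable ℚ K := by
  refine ⟨quad_separated K hK d δ hδ hδQ hd, ?_⟩
  obtain ⟨-, x₀, y₀, hy₀, h3⟩ := (isCongruent_iff _).1 h2
  refine quad_rankStable K hK d δ hδ hδQ D hd.ne' hD.ne' ?_ x₀ y₀ hy₀ h3
  intro x y h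
  by_contra hy
  exact h1 ((isCongruent_iff _).2 ⟨hD, x, y, hy, h⟩)

end Pool.Agent.H42
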